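import Pool.Agent.Y224.AZ.Stm

set_option autoImplicit false

/-! Ideals, brackets and stable subspaces of the Lie algebra of skew operators (S_SIM). -/

namespace Pool.Agent.Y369.AZ

open Module Pool.Agent.Y224.AZ

noncomputable section

section

variable {K V : Type} [Field K] [CharZero K] [AddCommGroup V] [Module K V]
  (B : V →ₗ[K] V →ₗ[K] K)

/-- operator of rank one -/
def ea (a : V) : End K V := (B a).smulRight a

omit [CharZero K] in
lemma ea_apply (a v : V) : ea B a v = B a v • a := rfl

/-- its polarization -/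
def E2 (a b : V) : End K V := (B a).smulRight b + (B b).smulRight a

omit [CharZero K] in
lemma E2_apply (a b v : V) : E2 B a b v = B a v • b + B b v • a := rfl

omit [CharZero K] in
lemma asym (hB : ∀ v, B v v = 0) (u v : V) : B u v = -B v u := by
  have h := hB (u + v)
  simp only [map_add, LinearMap.add_apply, hB, zero_add, add_zero] at h
  linear_combination h

omit [CharZero K] in
lemma E2_sk (hB : ∀ v, B v v = 0) (a b : V) : E2 B a b ∈ sk B := by
  intro u v
  rw [E2_apply, E2_apply]
  simp only [map_add, map_smul, LinearMap.add_apply, LinearMap.smul_apply, smul_eq_mul]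
  rw [asym B hB u b, asym B hB u a]
  ring

omit [CharZero K] in
lemma ea_sk (hB : ∀ v, B v v = 0) (a : V) : ea B a ∈ sk B := by
  intro u v
  rw [ea_apply, ea_apply]
  simp only [map_smul, LinearMap.smul_apply, smul_eq_mul]
  rw [asym B hB u a]
  ring

omit [CharZero K] in
lemma E2_eq (a b : V) : E2 B a b = ea B (a + b) - ea B a - ea B b := by
  ext v
  rw [LinearMap.sub_apply, LinearMap.sub_apply, E2_apply, ea_apply, ea_apply, ea_apply, map_add,
    LinearMap.add_apply]
  module

lemma span_ea [FiniteDimensional K V] (hB : ∀ v, B v v = 0) (hnd : ∀ u, (∀ v, B u v = 0) → u = 0)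
    (J : Submodule K (End K V)) (hJ : ∀ a, ea B a ∈ J) : sk B ≤ J := by
  intro y hy
  have hnd2 : ∀ z, (∀ v, B v z = 0) → z = 0 := by
    intro z hz
    apply hnd
    intro v
    rw [asym B hB z v, hz v, neg_zero]
  let bs := Module.finBasis K V
  have hinj : Function.Injective B := by
    rw [injective_iff_map_eq_zero]
    intro u hu
    apply hnd
    intro v
    rw [hu]
    rfl
  have hsurj : Function.Surjective B :=
    (LinearMap.injective_iff_surjective_of_finrank_eq_finrank
      (Subspace.dual_finrank_eq (K := K) (V := V)).symm).mp hinj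
  choose c hc using fun i => hsurj (bs.coord i)
  have h1 : ∀ v, ∑ i, B (c i) v • bs i = v := by
    intro v
    conv_rhs => rw [← bs.sum_repr v]
    refine Finset.sum_congr rfl fun i _ => ?_
    rw [hc]
    rfl
  have h2 : ∀ w, w + ∑ i, B (bs i) w • c i = 0 := by
    intro w
    apply hnd2
    intro v
    rw [map_add, map_sum]
    have e1 : B v w = ∑ i, B (c i) v * B (bs i) w := by
      conv_lhs => rw [← h1 v]
      rw [map_sum, LinearMap.sum_apply]
      refine Finset.sum_congr rfl fun i _ => ?_
      rw [map_smul, LinearMap.smul_apply, smul_eq_mul]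
    rw [e1, ← Finset.sum_add_distrib]
    refine Finset.sum_eq_zero fun i _ => ?_
    rw [map_smul, smul_eq_mul, asym B hB v (c i)]
    ring
  have h3 : (2 : K) • y = ∑ i, E2 B (c i) (y (bs i)) := by
    ext v
    rw [LinearMap.sum_apply]
    simp only [E2_apply]
    rw [Finset.sum_add_distrib]
    have e1 : ∑ i, B (c i) v • y (bs i) = y v := by
      conv_rhs => rw [← h1 v, map_sum]
      refine Finset.sum_congr rfl fun i _ => ?_
      rw [map_smul]
    have e2 : ∑ i, B (y (bs i)) v • c i = y v := by
      have e3 : ∀ i, B (y (bs i)) v • c i = -(B (bs i) (y v) • c i) := by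
        intro i
        have h4 := hy (bs i) v
        rw [← neg_smul]
        congr 1
        linear_combination h4
      rw [Finset.sum_congr rfl (fun i _ => e3 i), Finset.sum_neg_distrib]
      have h4 := h2 (y v)
      rw [neg_eq_iff_add_eq_zero, add_comm]
      exact h4
    rw [e1, e2, LinearMap.smul_apply, two_smul]
  have h4 : y = (1 / 2 : K) • ((2 : K) • y) := by
    rw [smul_smul]
    norm_num
  rw [h4, h3]
  apply J.smul_mem
  apply J.sum_mem
  intro i _
  rw [E2_eq]
  exact J.sub_mem (J.sub_mem (hJ _) (hJ _)) (hJ _)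

lemma ea_j (hB : ∀ v, B v v = 0) (J : Submodule K (End K V))
    (hJ : ∀ y ∈ sk B, ∀ j ∈ J, y * j - j * y ∈ J) (j : End K V) (hj : j ∈ J) (a : V)
    (ha : B a (j a) ≠ 0) : ea B a ∈ J := by
  have h1 := hJ _ (ea_sk B hB a) _ (hJ _ (ea_sk B hB a) j hj)
  have h2 : ea B a * (ea B a * j - j * ea B a) - (ea B a * j - j * ea B a) * ea B a =
      (-2 * B a (j a)) • ea B a := by
    ext v
    have e0 : ea B a (ea B a (j v)) = 0 := by
      rw [ea_apply, ea_apply, map_smul, hB, smul_zero, zero_smul]
    have e1 : ea B a (ea B a v) = 0 := by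
      rw [ea_apply, ea_apply, map_smul, hB, smul_zero, zero_smul]
    have e2 : ea B a (j (ea B a v)) = (B a v * B a (j a)) • a := by
      rw [ea_apply, ea_apply, map_smul, map_smul, smul_eq_mul]
    rw [LinearMap.sub_apply, Module.End.mul_apply, Module.End.mul_apply, LinearMap.sub_apply,
      LinearMap.sub_apply, Module.End.mul_apply, Module.End.mul_apply, Module.End.mul_apply,
      Module.End.mul_apply, map_sub, e0, e1, e2, map_zero, LinearMap.smul_apply, ea_apply]
    module
  rw [h2] at h1
  have h3 : (-2 * B a (j a)) ≠ 0 := mul_ne_zero (by norm_num) ha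
  exact (J.smul_mem_iff h3).mp h1

omit [CharZero K] in
/-- a vector outside two hyperplanes -/
lemma two_hyp (a b : V) (ha : ∃ v, B a v ≠ 0) (hb : ∃ v, B b v ≠ 0) :
    ∃ c, B a c ≠ 0 ∧ B b c ≠ 0 := by
  obtain ⟨c1, h1⟩ := ha
  obtain ⟨c2, h2⟩ := hb
  by_cases h3 : B b c1 = 0
  · by_cases h4 : B a c2 = 0
    · refine ⟨c1 + c2, ?_, ?_⟩
      · rw [map_add, h4, add_zero]; exact h1
      · rw [map_add, h3, zero_add]; exact h2
    · exact ⟨c2, h4, h2⟩
  · exact ⟨c1, h1, h3⟩

end

theorem t_sim : S_SIM := by
  intro K V _ _ _ _ _ B hB hnd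
  have hex : ∀ u : V, u ≠ 0 → ∃ v, B u v ≠ 0 := by
    intro u hu
    by_contra hc
    push Not at hc
    exact hu (hnd u hc)
  refine ⟨?_, ?_, ?_⟩
  · rintro J hJ ⟨j, hjJ, hjs, hj0⟩
    apply span_ea B hB hnd
    -- a vector
    obtain ⟨a, ha⟩ : ∃ a, B a (j a) ≠ 0 := by
      by_contra hc
      push Not at hc
      apply hj0
      ext v
      rw [LinearMap.zero_apply]
      apply hnd
      intro u
      have h1 := hc (u + v)
      have h2 := hc u
      have h3 := hc v
      have h4 := hjs u v
      rw [map_add j, map_add B, LinearMap.add_apply, map_add, map_add] at h1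
      have h5 : B (j u) v = -B v (j u) := asym B hB _ _
      have h6 : B u (j v) = 0 := by
        have : 2 * B u (j v) = 0 := by linear_combination h1 - h2 - h3 + h4 - h5
        exact (mul_eq_zero.mp this).resolve_left (by norm_num)
      rw [asym B hB, h6, neg_zero]
    have hea : ea B a ∈ J := ea_j B hB J hJ j hjJ a ha
    have ha0 : a ≠ 0 := by
      rintro rfl
      rw [map_zero, LinearMap.zero_apply] at ha
      exact ha rfl
    have hstep : ∀ a b, ea B a ∈ J → B a b ≠ 0 → ea B b ∈ J := by
      intro a b h1 h2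
      apply ea_j B hB J hJ _ h1 b
      rw [ea_apply, map_smul, smul_eq_mul, asym B hB b a]
      exact mul_ne_zero h2 (neg_ne_zero.mpr h2)
    intro b
    by_cases hb0 : b = 0
    · have : ea B b = 0 := by
        ext v
        rw [ea_apply, hb0, smul_zero]
        rfl
      rw [this]
      exact J.zero_mem
    · obtain ⟨c, h1, h2⟩ := two_hyp B a b (hex a ha0) (hex b hb0)
      apply hstep c b (hstep a c hea h1)
      rw [asym B hB c b]
      exact neg_ne_zero.mpr h2
  · intro J hJ
    apply span_ea B hB hnd
    intro a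
    by_cases ha0 : a = 0
    · have : ea B a = 0 := by
        ext v
        rw [ea_apply, ha0, smul_zero]
        rfl
      rw [this]
      exact J.zero_mem
    · obtain ⟨b, hb⟩ := hex a ha0
      have h1 := hJ _ (E2_sk B hB a b) _ (ea_sk B hB a)
      have h2 : E2 B a b * ea B a - ea B a * E2 B a b = (-2 * B a b) • ea B a := by
        ext v
        have h3 : B b a = -B a b := asym B hB b a
        simp only [LinearMap.sub_apply, Module.End.mul_apply, ea_apply, E2_apply, map_smul,
          map_add, LinearMap.smul_apply, hB, h3]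
        module
      rw [h2] at h1
      have h3 : (-2 * B a b) ≠ 0 := mul_ne_zero (by norm_num) hb
      exact (J.smul_mem_iff h3).mp h1
  · intro W hW
    by_cases hbot : W = ⊥
    · exact Or.inl hbot
    · right
      obtain ⟨w, hw, hw0⟩ := W.ne_bot_iff.mp hbot
      have h1 : ∀ a, B a w ≠ 0 → a ∈ W := by
        intro a ha
        have h2 := hW _ (ea_sk B hB a) w hw
        rw [ea_apply] at h2
        exact (W.smul_mem_iff ha).mp h2
      obtain ⟨c, hc⟩ := hex w hw0
      have hc' : B c w ≠ 0 := by
        rw [asym B hB c w]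
        exact neg_ne_zero.mpr hc
      have hcW := h1 c hc'
      rw [eq_top_iff]
      intro a _
      by_cases ha : B a w = 0
      · have h2 : a + c ∈ W := by
          apply h1
          rw [map_add, LinearMap.add_apply, ha, zero_add]
          exact hc'
        exact (W.add_mem_iff_left hcW).mp h2
      · exact h1 a ha

end

end Pool.Agent.Y369.AZ
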